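import Pool.Agent.H33.MN.AbelOne

/-!
# MP_5ee2d0_ag, Theorem M: special fibres with two components, numerical dimension two

The special fibre is `X_b = V_0 ∪ V_1`, `D = V_0 ∩ V_1` is an abelian surface, or a normal surface with
Du Val singularities and minimal resolution a K3 surface (no other condition on `D`). A class `x` of
numerical dimension two on the generic fibre, nef on some model: either some extension of a multiple is
acyclic on `X_b` with all its multiples, or some extension, after a finite base change, is semiample on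
the special fibre.
-/

namespace Pool.Agent.H6.MN

open Pool.Agent.H33.MN

/-- The germ of the family at a prime divisor `b` of the base with special fibre `X_b = V_0 ∪ V_1`; `V_i`
is `V false`, `V true`. All models are `Q`-factorial with canonical singularities, `(XX, X_b)` is log
canonical, the `V_i` are klt, the pairs `(V_i, D)` plt and `K + D ~ 0` on `V_i`. `Two L` says that `L` has
numerical dimension two, `c` is the degree of the second Chern class. Intersection numbers. -/
structure Numbers {P : Type} [AddCommGroup P] (g : Germ P) (c : P → ℚ) (Two : P → Prop) where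
  /-- the classes of the components of `X_b`, which is a principal divisor -/
  V : Bool → g.Lam
  V_add : V false + V true = 0
  rho_V : ∀ i, g.rho (V i) = 0
  nef_add : ∀ mu x y, g.Nef mu x → g.Nef mu y → g.Nef mu (x + y)
  two_nsmul : ∀ L (k : ℕ), 0 < k → Two L → Two (k • L)
  /-- all models are `Q`-factorial -/
  qfac : ∀ mu x, ∃ k : ℕ, 0 < k ∧ ∀ j : ℕ, g.Car mu (j • k • x)
  /-- the intersection numbers `x.y.z.V_i` -/
  T : g.Mo → Bool → g.Lam → g.Lam → g.Lam → ℚ
  T_add : ∀ mu i x y z w, T mu i (x + y) z w = T mu i x z w + T mu i y z w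
  T_12 : ∀ mu i x y z, T mu i x y z = T mu i y x z
  T_23 : ∀ mu i x y z, T mu i x y z = T mu i x z y
  T_nonneg : ∀ mu i x, g.Nef mu x → 0 ≤ T mu i x x x
  T_sum : ∀ mu x, Two (g.rho x) → T mu false x x x + T mu true x x x = 0
  /-- the special fibre is a principal divisor -/
  T_V : ∀ mu x y e, T mu false x y (V e) + T mu true x y (V e) = 0
  /-- the linear term of the Riemann-Roch theorem on `V_i`: the degree of the second Chern class of a
  resolution which is crepant over the curves of Du Val singularities; it is the sum of the degree of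
  the second orbifold Chern class of the logarithmic 1-forms of `(V_i, D)`, as `K + D ~ 0`, and of
  nonnegative multiples of the degrees of these curves -/
  e : g.Mo → Bool → g.Lam → ℚ
  e_add : ∀ mu i x y, e mu i (x + y) = e mu i x + e mu i y
  /-- the logarithmic 1-forms of the plt pair `(V_i, D)`, `K + D ~ 0`, are generically semipositive
  (Campana and Paun), so their second orbifold Chern class is nonnegative on nef classes (Miyaoka,
  Megyesi) -/
  e_nonneg : ∀ mu i x, g.Nef mu x → 0 ≤ e mu i x
  /-- additivity of Chern classes in a degeneration -/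
  e_sum : ∀ mu x, e mu false x + e mu true x = c (g.rho x)
  /-- the intersection numbers `x.y.A.V_i`, `A` ample on the model -/
  q : g.Mo → Bool → g.Lam → g.Lam → ℚ
  q_add : ∀ mu i x y z, q mu i (x + y) z = q mu i x z + q mu i y z
  q_symm : ∀ mu i x y, q mu i x y = q mu i y x
  q_nonneg : ∀ mu i x y, g.Nef mu x → g.Nef mu y → 0 ≤ q mu i x y
  q_sum : ∀ mu x, g.Nef mu x → Two (g.rho x) → 0 < q mu false x x + q mu true x x
  q_V : ∀ mu x e, q mu false x (V e) + q mu true x (V e) = 0
  /-- `V_(1-i)` is on `V_i` a positive multiple of `D` -/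
  q_D : ∀ mu i x, g.Nef mu x → 0 ≤ q mu i x (V (!i))
  /-- the intersection numbers `x.A.A.V_i` -/
  d : g.Mo → Bool → g.Lam → ℚ
  d_add : ∀ mu i x y, d mu i (x + y) = d mu i x + d mu i y
  d_nonneg : ∀ mu i x, g.Nef mu x → 0 ≤ d mu i x
  d_neg : ∀ mu i, d mu i (V i) < 0
  /-- Hodge index theorem on a general surface in the class `A` on `V_i` -/
  hodge : ∀ mu i x y, 0 < q mu i x x → q mu i x y = 0 →
    q mu i y y ≤ 0 ∧ (q mu i y y = 0 → d mu i y = 0)

namespace Numbers

variable {P : Type} [AddCommGroup P] {g : Germ P} {c : P → ℚ} {Two : P → Prop}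
  (N : Numbers g c Two)

/-- the class `n y + a V_i` -/
def sh (i : Bool) (n : ℕ) (y : g.Lam) (a : ℕ) : g.Lam := n • y + a • N.V i

/-- the class `z` is nef with all its multiples Cartier, of square zero on `D` and not numerically
trivial on `D` -/
def Flat (mu : g.Mo) (z : g.Lam) : Prop :=
  g.Nef mu z ∧ (∀ j : ℕ, g.Car mu (j • z)) ∧ N.T mu false z z (N.V false) = 0 ∧
    0 < N.q mu true z (N.V false)

/-- On `V_i` the class `z` is nef of numerical dimension two, and its products with itself and `D` and
its degree with respect to the second Chern class vanish. -/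
def Null (mu : g.Mo) (i : Bool) (z : g.Lam) : Prop :=
  g.Nef mu z ∧ N.T mu i z z z = 0 ∧ N.T mu i z z (N.V i) = 0 ∧
    N.T mu i z (N.V i) (N.V i) = 0 ∧ N.e mu i z = 0 ∧ 0 < N.q mu i z z

end Numbers

/-- Sections on the components. -/
structure Sections {P : Type} [AddCommGroup P] (g : Germ P) (c : P → ℚ) (Two : P → Prop)
    extends Numbers g c Two where
  /-- `χ(V_i, O) = χ(D, O) / 2`: it is zero if `D` is abelian and one if `D` is a K3 surface. Indeed
  `h^2(V_i, O) = h^3(V_i, O) = 0`, and `H^1(D, O)` is the direct sum of the `H^1(V_i, O)`, because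
  `H^1(O) = H^2(O) = 0` for `X_b`; if `D` is abelian and `h^1(V_i, O) = 2` then `V_i` is a conic bundle
  over its Albanese surface, `D` is an etale double cover of it, but the residues of the holomorphic
  3-form with a simple pole on `D` at the two points of a conic are opposite. -/
  o : ℕ
  /-- the dimension of `H^0(D, O(x))` -/
  hD : g.Mo → g.Lam → ℕ
  /-- the dimensions of `H^0(V_i, O(x))`, `H^0(V_i, O(x - D))`, `H^1(V_i, O(x - D))` -/
  h : g.Mo → Bool → g.Lam → ℕ
  hm : g.Mo → Bool → g.Lam → ℕ
  hm1 : g.Mo → Bool → g.Lam → ℕ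
  /-- there is an effective divisor in the class `x|V_i`, given by a section of `O(x)`, which does not
  contain `D`; so this `Q`-divisor class is integral at the generic point of `D`, where the model is
  `x y = t^r` (the classes `x + a V_i` with `a` divisible by `r` if `x` is Cartier there) -/
  Clean : g.Mo → Bool → g.Lam → Prop
  /-- `O(z - D) = O(K + z)` on `V_i`: Kawamata-Viehweg vanishing for `H^2` and `H^3` (`z` is nef of
  numerical dimension at least two), Serre duality and the Riemann-Roch theorem for `O(-z)` -/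
  rr : ∀ mu i z, g.Car mu z → toNumbers.Null mu i z → hm1 mu i z = hm mu i z + o
  /-- the cohomology sequence of `O(z - D) → O(z) → O_D(z)` -/
  seq : ∀ mu i z, g.Car mu z → hm mu i z + hD mu z ≤ h mu i z + hm1 mu i z
  seq_le : ∀ mu i z, g.Car mu z → h mu i z ≤ hm mu i z + hD mu z
  lift : ∀ mu i z, g.Car mu z → hm1 mu i z < hD mu z → Clean mu i z
  /-- divide all sections by the power of the equation of `D` which divides all of them -/
  order : ∀ mu i z, g.Car mu z → 0 < h mu i z →
    ∃ a : ℕ, Clean mu i (z + a • V i) ∧ h mu i z ≤ h mu i (z + a • V i)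
  /-- the same for a section which vanishes on `D` -/
  orderD : ∀ mu i z, g.Car mu z → 0 < hm mu i z → ∃ a : ℕ, 0 < a ∧ Clean mu i (z + a • V i)
  /-- restriction to `D` -/
  clean_D : ∀ mu i z, g.Car mu z → Clean mu i z → 0 < hD mu z
  hD_nsmul : ∀ mu z (m : ℕ), g.Car mu z → 0 < hD mu z → 0 < hD mu (m • z)
  /-- A nef class of square zero on `D` which is not numerically trivial: if `D` is a K3 surface then it
  is a multiple of an elliptic pencil; if `D` is abelian and the class is effective, then it is a sum of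
  translates of an elliptic curve. -/
  grow : ∀ mu z, toNumbers.Flat mu z → (0 < o ∨ ∃ j : ℕ, 0 < j ∧ 0 < hD mu (j • z)) →
    ∃ m : ℕ, 0 < m ∧ 2 + o ≤ hD mu (m • z)
  /-- a nef class of square zero on a surface -/
  linear : ∀ mu z, g.Nef mu z → (∀ j : ℕ, g.Car mu (j • z)) → T mu false z z (V false) = 0 →
    ∃ C : ℕ, ∀ m : ℕ, 0 < m → hD mu (m • z) ≤ C * m
  /-- Log abundance for threefolds (Keel, Matsuki, McKernan): if `R` is the divisor of a section which
  does not vanish on `D` then `(V_i, D + a R)` is plt for small `a > 0`, and its log canonical divisor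
  is `a z`; so `z` is semiample on `V_i`, with an image of dimension at least two. -/
  quad : ∀ mu i z, g.Nef mu z → g.Car mu z → Clean mu i z → 0 < q mu i z z →
    ∀ C : ℕ, ∃ m : ℕ, 0 < m ∧ C * m < h mu i (m • z)
  /-- a nef class of degree zero is numerically trivial -/
  h_num : ∀ mu i z, g.Nef mu z → d mu i z = 0 → h mu i z ≤ 1

/-- Models. `Semi L` says that after a finite base change of the germ some extension of a multiple of `L`
to a `K`-trivial model is nef and semiample on the special fibre, a chain with ends `V_0`, `V_1`, and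
the double surfaces are not mapped to points. -/
structure TwoGerm {P : Type} [AddCommGroup P] (g : Germ P) (c : P → ℚ) (Two Semi : P → Prop)
    extends Sections g c Two where
  /-- Movable classes and models. Let `y` be nef on `mu`, `n, a > 0`. The minimal model programs which
  increase the coefficient of `V_i` consist of flops of curves `C` in `V_i` with `V_i.C < 0`, that is
  `D.C > 0`; they add no divisor to `V_i`, because the discrepancies of the plt pair `(V_i, D)`,
  `K + D ~ 0`, are nonnegative, and they do not contract `D`, which is not covered by rational curves.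
  Such programs exist (Birkar, Cascini, Hacon and McKernan) and stop (special termination of Shokurov
  and Fujino for the plt pair with boundary `V_i`, Kawamata's termination for klt threefolds). If `w = n y + a V_i` is not movable over the base, let `t < 1` be
  maximal such that `n y + t a V_i` is movable; `t` is rational and this class is nef on a small
  modification of this kind, on which `V_i` is covered by curves of degree zero with respect to it, and
  of negative degree with respect to `V_i`. A section of `O(w)` on `V_i` would give one there, but `w`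
  has negative degree on a covering family. So if `w` has a section on `V_i` then `w` is nef on a small
  modification, and so is (on the same one) `b w + y` for large `b`. The push forward of the divisor of
  the section does not contain `D`. Multiplication with its power maps the sections of `O(w)` to those
  of `O(k w)`. -/
  up : ∀ mu i y (n a : ℕ), g.Nef mu y → 0 < n → 0 < a → Clean mu i (toNumbers.sh i n y a) →
    ∃ (mu' : g.Mo) (k b : ℕ), 0 < k ∧ (∀ j : ℕ, g.Car mu' (j • k • toNumbers.sh i n y a)) ∧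
      g.Nef mu' (k • toNumbers.sh i n y a) ∧ g.Nef mu' (b • toNumbers.sh i n y a + y) ∧
        Clean mu' i (k • toNumbers.sh i n y a) ∧
          h mu i (toNumbers.sh i n y a) ≤ h mu' i (k • toNumbers.sh i n y a)
  /-- The classes between two different extensions which are nef on some models are movable, and nef
  on finitely many models in turn (the programs of `up`); so one of them is in the interior of a
  chamber. -/
  mid : ∀ mu' mu'' z z' i (m a : ℕ), 0 < m → 0 < a → g.Nef mu' z → g.Nef mu'' z' →
    z' = toNumbers.sh i m z a → ∃ (mu : g.Mo) (α β b : ℕ) (y : g.Lam), 0 < α ∧ 0 < β ∧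
      y = α • z + β • z' ∧ g.Nef mu y ∧ (∀ l, g.Nef mu (b • y + V l)) ∧ ∀ j : ℕ, g.Car mu (j • y)
  /-- negativity lemma: on a common resolution the pull back of `z + z'` is the sum of the pull backs of
  `z`, `z'` and of an effective exceptional divisor, which does not contain `D` -/
  super : ∀ mu mu' mu'' z z', g.Nef mu' z → g.Nef mu'' z' → g.Nef mu (z + z') → g.Car mu' z →
    g.Car mu'' z' → g.Car mu (z + z') → 0 < hD mu' z → 0 < hD mu'' z' → 0 < hD mu (z + z')
  /-- The Euler characteristic of `z` on `X_b` is zero, as on the generic fibre, and the cohomology in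
  degrees two and three vanishes: `H^i(V_j, z - D) = 0` for `i ≥ 2` and `H^2(D, z) = 0`. -/
  acyclic : ∀ mu z, toNumbers.Flat mu z → Two (g.rho z) → c (g.rho z) = 0 →
    (∀ i, 0 < q mu i z z) → (∀ i, h mu i z = 0) → g.Acyclic mu z
  /-- Let `z` on `V_0` and `z'` on `V_1` have sections which do not vanish on `D`; they are semiample
  there (log abundance, as in `quad`), and `D` is mapped to curves: both classes have square zero and are
  not numerically trivial on `D`. If `z' = z` up to multiples they can be glued (Kollár): one of `V_0`,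
  `V_1`, say `V_1`, is mapped onto a surface by `f`, and `R^1 f_* O(-D)`, `O(-D) = O(K)`, is torsion free
  (Kollár), so `f_* O → f_* O_D` is onto: `D` meets the fibres in connected sets and its image is a normal
  curve; so the equivalence relation is given by the finite map of this curve to the image of `V_0`. If
  not, then `z' = z + s V_1`, `s > 0`, up to multiples. After a base change of the germ there is a model
  with special fibre `V_0 ∪ W ∪ V_1` on which the extension `N` with `N = z` on `V_0` and `N = z'` on `V_1`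
  is nef: `W` is birational to a `ℙ^1`-bundle over `D` with the double surfaces as two sections, `N` has
  positive degree on the fibres, and the curves in `W` of negative degree on a first model are in the
  sections. The sections of `z` and `z'` on `D` give sections of `N` on `W` (the flops modify `W` along
  curves of a section of the bundle to an order at most that of the section of `N`) which do not vanish
  on the first and on the second double surface; the general member of the pencil contains neither, so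
  `N` is semiample on `W` (log abundance; the pair is plt as the double surfaces are disjoint), and the
  gluing is as before on both sides: the image of `W` is a surface, `O(K)` is the ideal of both double
  surfaces, and so their images are disjoint normal curves. -/
  chain : ∀ mu mu' z z' (a b s : ℕ), toNumbers.Flat mu z → toNumbers.Flat mu' z' →
    Two (g.rho z) → Clean mu false z → Clean mu' true z' → 0 < a → 0 < b →
      a • z' = toNumbers.sh true b z s → Semi (g.rho z)
  /-- after flops of curves of degree zero, `V_i` has a Mori fibration `V_i → S` (the anticanonical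
  divisor, which is linearly equivalent to `D`, is relatively ample), and `x` is on `V_i` the pull back
  of a nef class of `S` -/
  Fib : Bool → g.Lam → Prop
  /-- cone theorem, existence of flips (Birkar, Cascini, Hacon and McKernan) and termination for the
  threefold `V_i`: if `j x + V_i` is not nef for all `j`, on all models on which `x` is nef, then
  there is such a Mori fibration -/
  mmp : ∀ mu i x, g.Nef mu x → (∀ mu', g.Nef mu' x → ∀ j : ℕ, ¬ g.Nef mu' (j • x + V i)) →
    Fib i x
  /-- if the square of `x` on `D` is zero then `S` is a point, a curve, or a surface on which the class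
  has square zero, since `D → S` has degree two -/
  fib_sq : ∀ mu i x, g.Nef mu x → Fib i x → T mu i x x (V i) = 0 → q mu i x x = 0
  /-- The group of the automorphisms, with their action on `O(1)`, of the image of `D` under the
  morphism given by a multiple of `x`, of which `O(1)` is a line bundle with pull back a multiple of
  `x`. -/
  Lin : g.Mo → g.Lam → Type
  [grp : ∀ mu x, Group (Lin mu x)]
  /-- if `x` is nef and big on `D`, an abelian or K3 surface, then it is finite modulo the scalars, which
  are central -/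
  lin_fin : ∀ mu x, g.Nef mu x → T mu false x x (V false) ≠ 0 →
    ∃ S : Finset (Lin mu x), ∀ u, ∃ v ∈ S, ∀ w, (v⁻¹ * u) * w = w * (v⁻¹ * u)
  /-- `l` is induced by the covering involution of `D → S` -/
  Cover : ∀ mu, Bool → ∀ x, Lin mu x → Prop
  cover : ∀ mu i x, g.Nef mu x → Fib i x → T mu false x x (V false) ≠ 0 →
    ∃ l, Cover mu i x l ∧ l * l = 1
  /-- Kollár: gluing by a finite equivalence relation; `x` is on `S` semiample because it is on `D` -/
  glue : ∀ mu x, g.Nef mu x → (∀ i, Fib i x) → T mu false x x (V false) ≠ 0 →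
    ∀ l : Bool → Lin mu x, (∀ i, Cover mu i x (l i)) →
      (∃ k : ℕ, 0 < k ∧ (l false * l true) ^ k = 1) → Semi (g.rho x)

attribute [instance] TwoGerm.grp

namespace TwoGerm

variable {P : Type} [AddCommGroup P] {g : Germ P} {c : P → ℚ} {Two Semi : P → Prop}
  (S : TwoGerm g c Two Semi)

/-! ### Formal lemmas -/

lemma V_not (i : Bool) : S.V (!i) = -S.V i := by
  have h := S.V_add
  cases i
  · exact (neg_eq_of_add_eq_zero_right h).symm
  · exact (neg_eq_of_add_eq_zero_left h).symm

include S in
lemma nef_nsmul (mu : g.Mo) (x : g.Lam) (hx : g.Nef mu x) (n : ℕ) (hn : 0 < n) :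
    g.Nef mu (n • x) := by
  induction n, hn using Nat.le_induction with
  | base => simpa using hx
  | succ n _ ih => rw [add_smul, one_smul]; exact S.nef_add _ _ _ ih hx

lemma T_zero (mu : g.Mo) (i : Bool) (y z : g.Lam) : S.T mu i 0 y z = 0 := by
  have h := S.T_add mu i 0 0 y z
  rw [add_zero] at h
  linarith

lemma T_nsmul (mu : g.Mo) (i : Bool) (n : ℕ) (x y z : g.Lam) :
    S.T mu i (n • x) y z = n * S.T mu i x y z := by
  induction n with
  | zero => simp [S.T_zero]
  | succ n ih => rw [add_smul, one_smul, S.T_add, ih]; push_cast; ring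

lemma T_neg (mu : g.Mo) (i : Bool) (x y z : g.Lam) : S.T mu i (-x) y z = -S.T mu i x y z := by
  have h := S.T_add mu i x (-x) y z
  rw [add_neg_cancel, S.T_zero] at h
  linarith

lemma T_rot (mu : g.Mo) (i : Bool) (x y z : g.Lam) : S.T mu i x y z = S.T mu i z x y := by
  rw [S.T_23, S.T_12]

lemma q_zero (mu : g.Mo) (i : Bool) (y : g.Lam) : S.q mu i 0 y = 0 := by
  have h := S.q_add mu i 0 0 y
  rw [add_zero] at h
  linarith

lemma q_nsmul (mu : g.Mo) (i : Bool) (n : ℕ) (x y : g.Lam) :
    S.q mu i (n • x) y = n * S.q mu i x y := by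
  induction n with
  | zero => simp [S.q_zero]
  | succ n ih => rw [add_smul, one_smul, S.q_add, ih]; push_cast; ring

lemma q_neg (mu : g.Mo) (i : Bool) (x y : g.Lam) : S.q mu i (-x) y = -S.q mu i x y := by
  have h := S.q_add mu i x (-x) y
  rw [add_neg_cancel, S.q_zero] at h
  linarith

lemma e_zero (mu : g.Mo) (i : Bool) : S.e mu i 0 = 0 := by
  have h := S.e_add mu i 0 0
  rw [add_zero] at h
  linarith

lemma e_nsmul (mu : g.Mo) (i : Bool) (n : ℕ) (x : g.Lam) : S.e mu i (n • x) = n * S.e mu i x := by
  induction n with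
  | zero => simp [S.e_zero]
  | succ n ih => rw [add_smul, one_smul, S.e_add, ih]; push_cast; ring

lemma d_zero (mu : g.Mo) (i : Bool) : S.d mu i 0 = 0 := by
  have h := S.d_add mu i 0 0
  rw [add_zero] at h
  linarith

lemma d_nsmul (mu : g.Mo) (i : Bool) (n : ℕ) (x : g.Lam) : S.d mu i (n • x) = n * S.d mu i x := by
  induction n with
  | zero => simp [S.d_zero]
  | succ n ih => rw [add_smul, one_smul, S.d_add, ih]; push_cast; ring

lemma d_neg' (mu : g.Mo) (i : Bool) (x : g.Lam) : S.d mu i (-x) = -S.d mu i x := by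
  have h := S.d_add mu i x (-x)
  rw [add_neg_cancel, S.d_zero] at h
  linarith

/-- the cube of `m z + a v` -/
lemma T_cube (mu : g.Mo) (i : Bool) (z v : g.Lam) (m a : ℕ) :
    S.T mu i (m • z + a • v) (m • z + a • v) (m • z + a • v) =
      (m : ℚ) ^ 3 * S.T mu i z z z + 3 * (m : ℚ) ^ 2 * a * S.T mu i z z v +
        3 * (m : ℚ) * a ^ 2 * S.T mu i z v v + (a : ℚ) ^ 3 * S.T mu i v v v := by
  have h2 : ∀ x y w w', S.T mu i w (x + y) w' = S.T mu i w x w' + S.T mu i w y w' := by
    intro x y w w'
    rw [S.T_12, S.T_add, S.T_12 mu i x, S.T_12 mu i y]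
  have h3 : ∀ x y w w', S.T mu i w w' (x + y) = S.T mu i w w' x + S.T mu i w w' y := by
    intro x y w w'
    rw [S.T_23, h2, S.T_23 mu i w x, S.T_23 mu i w y]
  have n2 : ∀ (n : ℕ) x w w', S.T mu i w (n • x) w' = n * S.T mu i w x w' := by
    intro n x w w'
    rw [S.T_12, S.T_nsmul, S.T_12]
  have n3 : ∀ (n : ℕ) x w w', S.T mu i w w' (n • x) = n * S.T mu i w w' x := by
    intro n x w w'
    rw [S.T_23, n2, S.T_23]
  simp only [S.T_add, S.T_nsmul, h2, h3, n2, n3]
  have e1 : S.T mu i z v z = S.T mu i z z v := S.T_23 _ _ _ _ _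
  have e2 : S.T mu i v z z = S.T mu i z z v := by rw [S.T_12, e1]
  have e3 : S.T mu i v z v = S.T mu i z v v := S.T_12 _ _ _ _ _
  have e4 : S.T mu i v v z = S.T mu i z v v := by rw [S.T_23, e3]
  rw [e1, e2, e3, e4]
  ring

/-- the class `z` is nef, and so is `z + ε V_l` -/
def Side (mu : g.Mo) (z : g.Lam) (l : Bool) : Prop :=
  g.Nef mu z ∧ ∃ m a : ℕ, 0 < m ∧ 0 < a ∧ g.Nef mu (m • z + a • S.V l)

lemma rho_comb (z : g.Lam) (l : Bool) (m a : ℕ) : g.rho (m • z + a • S.V l) = m • g.rho z := by
  rw [map_add, map_nsmul, map_nsmul, S.rho_V, smul_zero, add_zero]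

/-- all cubes vanish -/
lemma T_eq_zero (mu : g.Mo) (z : g.Lam) (l : Bool) (hz : S.Side mu z l) (h2 : Two (g.rho z))
    (i : Bool) : S.T mu i z z z = 0 ∧ S.T mu i z z (S.V l) = 0 ∧ S.T mu i z (S.V l) (S.V l) = 0 := by
  obtain ⟨hn, m, a, hm, ha, hma⟩ := hz
  have key : ∀ x, g.Nef mu x → Two (g.rho x) → S.T mu i x x x = 0 := by
    intro x hx hx2
    have h := S.T_sum mu x hx2
    have h0 := S.T_nonneg mu false x hx
    have h1 := S.T_nonneg mu true x hx
    cases i <;> linarith
  have hz0 := key z hn h2
  have hc : ∀ k : ℕ, S.T mu i ((m + k) • z + a • S.V l) ((m + k) • z + a • S.V l)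
      ((m + k) • z + a • S.V l) = 0 := by
    intro k
    apply key
    · rcases Nat.eq_zero_or_pos k with rfl | hk
      · simpa using hma
      · have e : (m + k) • z + a • S.V l = k • z + (m • z + a • S.V l) := by
          rw [add_smul]; abel
        rw [e]
        exact S.nef_add _ _ _ (S.nef_nsmul mu z hn k hk) hma
    · rw [S.rho_comb]
      exact S.two_nsmul _ _ (by omega) h2
  have h0 := hc 0
  have h1 := hc 1
  have h3 := hc 2
  rw [S.T_cube, hz0] at h0 h1 h3
  push_cast at h0 h1 h3
  have ha' : (a : ℚ) ≠ 0 := by exact_mod_cast ha.ne'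
  have hB : S.T mu i z z (S.V l) = 0 := by
    have : (6 : ℚ) * a * S.T mu i z z (S.V l) = 0 := by linear_combination h0 + h3 - 2 * h1
    rcases mul_eq_zero.1 this with h | h
    · exfalso
      rcases mul_eq_zero.1 h with h | h
      · norm_num at h
      · exact ha' h
    · exact h
  refine ⟨hz0, hB, ?_⟩
  rw [hB] at h0 h1
  have : (3 : ℚ) * a ^ 2 * S.T mu i z (S.V l) (S.V l) = 0 := by linear_combination h1 - h0
  rcases mul_eq_zero.1 this with h | h
  · exfalso
    rcases mul_eq_zero.1 h with h | h
    · norm_num at h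
    · exact ha' (pow_eq_zero_iff (two_ne_zero) |>.1 h)
  · exact h

/-- the linear terms of the Riemann-Roch theorem vanish -/
lemma e_eq_zero (mu : g.Mo) (z : g.Lam) (hz : g.Nef mu z) (hc : c (g.rho z) = 0) (i : Bool) :
    S.e mu i z = 0 := by
  have h := S.e_sum mu z
  have h0 := S.e_nonneg mu false z hz
  have h1 := S.e_nonneg mu true z hz
  rw [hc] at h
  cases i <;> linarith

include S in
lemma c_nsmul (x : g.Lam) (mu : g.Mo) (n : ℕ) (hc : c (g.rho x) = 0) :
    c (g.rho (n • x)) = 0 := by
  rw [← S.e_sum mu, S.e_nsmul, S.e_nsmul, ← mul_add, S.e_sum, hc, mul_zero]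

/-- the square of `z` on `D`, seen from both components -/
lemma T_D (mu : g.Mo) (x y : g.Lam) : S.T mu false x y (S.V false) = S.T mu true x y (S.V true) := by
  have h := S.T_V mu x y false
  have e : S.T mu true x y (S.V true) = -S.T mu true x y (S.V false) := by
    have : S.V true = -S.V false := S.V_not false
    rw [this, S.T_rot, S.T_neg, S.T_rot mu true x y]
  linarith

/-- the degree of `z` on `D`, seen from both components -/
lemma q_D_eq (mu : g.Mo) (x : g.Lam) (i : Bool) :
    S.q mu i x (S.V (!i)) = S.q mu true x (S.V false) ∧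
      S.q mu i x (S.V i) = -S.q mu true x (S.V false) := by
  have h := S.q_V mu x false
  have h' := S.q_V mu x true
  have e : ∀ l, S.q mu l x (S.V true) = -S.q mu l x (S.V false) := by
    intro l
    have : S.V true = -S.V false := S.V_not false
    rw [this, S.q_symm, S.q_neg, S.q_symm]
  have e0 := e false
  have e1 := e true
  cases i
  · constructor
    · show S.q mu false x (S.V true) = _
      linarith
    · linarith
  · constructor
    · rfl
    · linarith

/-- If `z` and `z + ε V_l` are nef then `z` has numerical dimension two on `V_l`. -/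
lemma q_pos (mu : g.Mo) (z : g.Lam) (l : Bool) (hz : S.Side mu z l) (h2 : Two (g.rho z)) :
    0 < S.q mu l z z := by
  obtain ⟨hn, m, a, hm, ha, hma⟩ := hz
  have hge := S.q_nonneg mu l z z hn hn
  rcases hge.lt_or_eq with h | h
  · exact h
  exfalso
  obtain ⟨hd1, hd2⟩ := S.q_D_eq mu z l
  obtain ⟨hd3, hd4⟩ := S.q_D_eq mu z (!l)
  rw [Bool.not_not] at hd3
  have hdn : 0 ≤ S.q mu true z (S.V false) := S.q_D mu true z hn
  have ha' : (0 : ℚ) < a := by exact_mod_cast ha
  -- `z` has degree zero on `D`
  have h1 : 0 ≤ S.q mu l z (m • z + a • S.V l) := S.q_nonneg mu l _ _ hn hma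
  rw [S.q_symm, S.q_add, S.q_nsmul, S.q_nsmul, ← h, S.q_symm mu l (S.V l), hd2] at h1
  have hd0 : S.q mu true z (S.V false) = 0 := by nlinarith
  rw [hd0] at hd1 hd2 hd3 hd4
  -- on the other component
  have hsum := S.q_sum mu z hn h2
  have hpos : 0 < S.q mu (!l) z z := by
    cases l
    · show 0 < S.q mu true z z
      linarith
    · show 0 < S.q mu false z z
      linarith
  obtain ⟨hle, heq⟩ := S.hodge mu (!l) z (S.V l) hpos hd3
  have hne : S.q mu (!l) (S.V l) (S.V l) ≠ 0 := by
    intro h0
    have h5 := heq h0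
    have h6 := S.d_neg mu (!l)
    rw [S.V_not, S.d_neg', h5] at h6
    simp at h6
  have hlt : S.q mu (!l) (S.V l) (S.V l) < 0 := lt_of_le_of_ne hle hne
  have hV := S.q_V mu (S.V l) l
  have hlpos : 0 < S.q mu l (S.V l) (S.V l) := by
    cases l
    · have : S.q mu true (S.V false) (S.V false) < 0 := hlt
      linarith
    · have : S.q mu false (S.V true) (S.V true) < 0 := hlt
      linarith
  have h7 : S.q mu l (S.V l) z = 0 := by rw [S.q_symm, hd2, neg_zero]
  obtain ⟨_, h8⟩ := S.hodge mu l (S.V l) z hlpos h7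
  have h9 := h8 h.symm
  have h10 := S.d_nonneg mu l _ hma
  rw [S.d_add, S.d_nsmul, S.d_nsmul, h9] at h10
  have h11 := S.d_neg mu l
  nlinarith

/-- If `z` and `z + ε V_l` are nef, and `z` is not numerically trivial on `V_(1-l)`, then it is not
numerically trivial on `D`. -/
lemma q_D_pos (mu : g.Mo) (z : g.Lam) (l : Bool) (hz : S.Side mu z l) (h2 : Two (g.rho z))
    (hd : S.d mu (!l) z ≠ 0) : 0 < S.q mu true z (S.V false) := by
  have hn := hz.1
  have hdn : 0 ≤ S.q mu true z (S.V false) := S.q_D mu true z hn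
  rcases hdn.lt_or_eq with h | h
  · exact h
  exfalso
  obtain ⟨hd1, hd2⟩ := S.q_D_eq mu z l
  obtain ⟨hd3, hd4⟩ := S.q_D_eq mu z (!l)
  rw [Bool.not_not] at hd3
  rw [← h] at hd1 hd2 hd3 hd4
  rw [neg_zero] at hd2 hd4
  obtain ⟨hle, heq⟩ := S.hodge mu l z (S.V l) (S.q_pos mu z l hz h2) hd2
  have hne : S.q mu l (S.V l) (S.V l) ≠ 0 := by
    intro h0
    have h5 := heq h0
    have h6 := S.d_neg mu l
    linarith
  have hlt : S.q mu l (S.V l) (S.V l) < 0 := lt_of_le_of_ne hle hne
  have hV := S.q_V mu (S.V l) l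
  have hlpos : 0 < S.q mu (!l) (S.V l) (S.V l) := by
    cases l
    · show 0 < S.q mu true (S.V false) (S.V false)
      linarith
    · show 0 < S.q mu false (S.V true) (S.V true)
      linarith
  have h7 : S.q mu (!l) (S.V l) z = 0 := by rw [S.q_symm, hd3]
  obtain ⟨h8, h9⟩ := S.hodge mu (!l) (S.V l) z hlpos h7
  have h10 := S.q_nonneg mu (!l) z z hn hn
  exact hd (h9 (le_antisymm h8 h10))

/-- If `z + ε V_l` is nef for both `l` then `z` is not numerically trivial on `D`. -/
lemma q_D_pos' (mu : g.Mo) (z : g.Lam) (hz : ∀ l, S.Side mu z l) (h2 : Two (g.rho z)) :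
    0 < S.q mu true z (S.V false) := by
  refine S.q_D_pos mu z false (hz false) h2 ?_
  intro h0
  obtain ⟨hn, m, a, hm, ha, hma⟩ := hz true
  have h10 := S.d_nonneg mu true _ hma
  have h0' : S.d mu true z = 0 := h0
  rw [S.d_add, S.d_nsmul, S.d_nsmul, h0'] at h10
  have h11 := S.d_neg mu true
  have ha' : (0 : ℚ) < a := by exact_mod_cast ha
  nlinarith

/-! ### The argument -/

lemma side_nsmul (mu : g.Mo) (z : g.Lam) (l : Bool) (hz : S.Side mu z l) (n : ℕ) (hn : 0 < n) :
    S.Side mu (n • z) l := by
  obtain ⟨hnef, m, a, hm, ha, hma⟩ := hz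
  refine ⟨S.nef_nsmul mu z hnef n hn, m, n * a, hm, Nat.mul_pos hn ha, ?_⟩
  have e : m • n • z + (n * a) • S.V l = n • (m • z + a • S.V l) := by
    rw [smul_add, smul_comm n m z, mul_smul]
  rw [e]
  exact S.nef_nsmul mu _ hma n hn

lemma T_any (mu : g.Mo) (z : g.Lam) (l : Bool) (hz : S.Side mu z l) (h2 : Two (g.rho z)) :
    S.T mu false z z (S.V false) = 0 := by
  have h := (S.T_eq_zero mu z l hz h2 false).2.1
  cases l
  · exact h
  · have e : S.V true = -S.V false := S.V_not false
    rw [e, S.T_rot, S.T_neg] at h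
    rw [S.T_rot]
    linarith

/-- After the step from `w` to a model on which it is nef: the class lies on one side of the end. -/
lemma side_up (mu' : g.Mo) (y : g.Lam) (i : Bool) (n a k b : ℕ) (hn : 0 < n) (ha : 0 < a)
    (hk : 0 < k) (h1 : g.Nef mu' (k • S.sh i n y a)) (h2 : g.Nef mu' (b • S.sh i n y a + y)) :
    S.Side mu' (k • S.sh i n y a) (!i) := by
  refine ⟨h1, n * b + 1, k * a, by omega, Nat.mul_pos hk ha, ?_⟩
  have e : (n * b + 1) • k • S.sh i n y a + (k * a) • S.V (!i) =
      (k * n) • (b • S.sh i n y a + y) := by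
    rw [S.V_not, Numbers.sh]
    module
  rw [e]
  exact S.nef_nsmul mu' _ h2 _ (Nat.mul_pos hk hn)

lemma flat (mu : g.Mo) (z : g.Lam) (l : Bool) (hz : S.Side mu z l)
    (hcar : ∀ j : ℕ, g.Car mu (j • z)) (h2 : Two (g.rho z)) (hq : 0 < S.q mu true z (S.V false)) :
    S.Flat mu z := ⟨hz.1, hcar, S.T_any mu z l hz h2, hq⟩

/-- the Riemann-Roch theorem on `V_i` -/
lemma rr' (mu : g.Mo) (z : g.Lam) (i : Bool) (hz : S.Side mu z i) (hcar : g.Car mu z)
    (h2 : Two (g.rho z)) (hc : c (g.rho z) = 0) : S.hm1 mu i z = S.hm mu i z + S.o := by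
  obtain ⟨t1, t2, t3⟩ := S.T_eq_zero mu z i hz h2 i
  exact S.rr mu i z hcar
    ⟨hz.1, t1, t2, t3, S.e_eq_zero mu z hz.1 hc i, S.q_pos mu z i hz h2⟩

lemma car_nsmul (mu : g.Mo) (z : g.Lam) (hcar : ∀ j : ℕ, g.Car mu (j • z)) (n : ℕ) :
    ∀ j : ℕ, g.Car mu (j • n • z) := by
  intro j
  rw [← mul_smul]
  exact hcar _

/-- one side of Lemma R -/
lemma step (mu : g.Mo) (Y : g.Lam) (hcar : ∀ j : ℕ, g.Car mu (j • Y)) (hs : ∀ l, S.Side mu Y l)
    (h2 : Two (g.rho Y)) (hc : c (g.rho Y) = 0) (n : ℕ) (hn : 0 < n)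
    (hD : 2 + S.o ≤ S.hD mu (n • Y)) (i : Bool) :
    ∃ (mu' : g.Mo) (p s : ℕ), 0 < p ∧ S.Flat mu' (p • Y + s • S.V i) ∧
      S.Clean mu' i (p • Y + s • S.V i) := by
  have hsn := fun l => S.side_nsmul mu Y l (hs l) n hn
  have h2n : Two (g.rho (n • Y)) := by rw [map_nsmul]; exact S.two_nsmul _ _ hn h2
  have hcn := S.c_nsmul Y mu n hc
  have hrr := S.rr' mu (n • Y) i (hsn i) (hcar n) h2n hcn
  have hseq := S.seq mu i (n • Y) (hcar n)
  have hh : 2 ≤ S.h mu i (n • Y) := by omega
  obtain ⟨a, hcl, hle⟩ := S.order mu i (n • Y) (hcar n) (by omega)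
  rcases Nat.eq_zero_or_pos a with rfl | ha
  · refine ⟨mu, n, 0, hn, ?_⟩
    rw [zero_smul, add_zero] at hcl ⊢
    exact ⟨S.flat mu _ i (hsn i) (car_nsmul mu Y hcar n) h2n (S.q_D_pos' mu _ hsn h2n), hcl⟩
  · obtain ⟨mu', k, b, hk, h5, h3, h4, h6, h7⟩ := S.up mu i Y n a (hs i).1 hn ha hcl
    have hside := S.side_up mu' Y i n a k b hn ha hk h3 h4
    have e : k • S.sh i n Y a = (k * n) • Y + (k * a) • S.V i := by
      rw [Numbers.sh]; module
    have h2' : Two (g.rho (k • S.sh i n Y a)) := by
      rw [e, S.rho_comb]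
      exact S.two_nsmul _ _ (Nat.mul_pos hk hn) h2
    have hle' : S.h mu i (n • Y) ≤ S.h mu i (S.sh i n Y a) := hle
    have hd : S.d mu' i (k • S.sh i n Y a) ≠ 0 := by
      intro h0
      have := S.h_num mu' i _ h3 h0
      omega
    have hq := S.q_D_pos mu' _ (!i) hside h2' (by rwa [Bool.not_not])
    have hf := S.flat mu' _ (!i) hside h5 h2' hq
    refine ⟨mu', k * n, k * a, Nat.mul_pos hk hn, ?_⟩
    rw [← e]
    exact ⟨hf, h6⟩

/-- **Lemma R.** If `Y` is in the interior and some multiple has enough sections on `D`, then some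
extension is semiample. -/
theorem semi_of_hD (mu : g.Mo) (Y : g.Lam) (hcar : ∀ j : ℕ, g.Car mu (j • Y))
    (hs : ∀ l, S.Side mu Y l) (h2 : Two (g.rho Y)) (hc : c (g.rho Y) = 0) (n : ℕ) (hn : 0 < n)
    (hD : 2 + S.o ≤ S.hD mu (n • Y)) : ∃ k : ℕ, 0 < k ∧ Semi (k • g.rho Y) := by
  obtain ⟨mu0, p0, s0, hp0, f0, k0⟩ := S.step mu Y hcar hs h2 hc n hn hD false
  obtain ⟨mu1, p1, s1, hp1, f1, k1⟩ := S.step mu Y hcar hs h2 hc n hn hD true
  refine ⟨p0, hp0, ?_⟩
  have hr : g.rho (p0 • Y + s0 • S.V false) = p0 • g.rho Y := S.rho_comb Y false p0 s0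
  have hrel : p0 • (p1 • Y + s1 • S.V true) =
      S.sh true p1 (p0 • Y + s0 • S.V false) (p0 * s1 + p1 * s0) := by
    have e : S.V true = -S.V false := S.V_not false
    rw [Numbers.sh, e]
    module
  have h2' : Two (g.rho (p0 • Y + s0 • S.V false)) := by
    rw [hr]
    exact S.two_nsmul _ _ hp0 h2
  have h := S.chain mu0 mu1 _ _ p0 p1 _ f0 f1 h2' k0 k1 hp0 hp1 hrel
  rwa [hr] at h

/-- The case that `D` is abelian and a multiple of `Y` is not acyclic. -/
theorem semi_of_section (ho : S.o = 0) (mu : g.Mo) (Y : g.Lam) (hcar : ∀ j : ℕ, g.Car mu (j • Y))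
    (hs : ∀ l, S.Side mu Y l) (h2 : Two (g.rho Y)) (hc : c (g.rho Y) = 0)
    (hno : ¬ ∃ j : ℕ, 0 < j ∧ 0 < S.hD mu (j • Y)) (n : ℕ) (hn : 0 < n) (i : Bool)
    (hh : 0 < S.h mu i (n • Y)) : ∃ k : ℕ, 0 < k ∧ Semi (k • g.rho Y) := by
  obtain ⟨a, hcl, -⟩ := S.order mu i (n • Y) (hcar n) hh
  rcases Nat.eq_zero_or_pos a with rfl | ha
  · exfalso
    rw [zero_smul, add_zero] at hcl
    exact hno ⟨n, hn, S.clean_D mu i _ (hcar n) hcl⟩
  obtain ⟨mu', k, b, hk, h5, h3, h4, h6, -⟩ := S.up mu i Y n a (hs i).1 hn ha hcl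
  have hside := S.side_up mu' Y i n a k b hn ha hk h3 h4
  have hez : k • S.sh i n Y a = (k * n) • Y + (k * a) • S.V i := by rw [Numbers.sh]; module
  have hrz : g.rho (k • S.sh i n Y a) = (k * n) • g.rho Y := by rw [hez, S.rho_comb]
  generalize k • S.sh i n Y a = z at h3 h5 h6 hside hez hrz
  have h2z : Two (g.rho z) := by
    rw [hrz]
    exact S.two_nsmul _ _ (Nat.mul_pos hk hn) h2
  have hcz : c (g.rho z) = 0 := by
    rw [hez, S.rho_comb, ← map_nsmul]
    exact S.c_nsmul Y mu _ hc
  have hC1 : g.Car mu' z := by simpa using h5 1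
  have hDz := S.clean_D mu' i z hC1 h6
  -- the other side
  have hex : ∃ m : ℕ, 0 < m ∧ 0 < S.hm mu' (!i) (m • z) := by
    by_contra hcon
    push Not at hcon
    have hrr1 := S.rr' mu' z (!i) hside hC1 h2z hcz
    have h01 : S.hm mu' (!i) z = 0 := by
      have := hcon 1 one_pos
      rw [one_smul] at this
      omega
    have hcl' : S.Clean mu' (!i) z := S.lift mu' (!i) z hC1 (by omega)
    obtain ⟨C, hC⟩ := S.linear mu' z h3 h5 (S.T_any mu' z (!i) hside h2z)
    obtain ⟨m, hm, hlt⟩ := S.quad mu' (!i) z h3 hC1 hcl' (S.q_pos mu' z (!i) hside h2z) C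
    have h8 := S.seq_le mu' (!i) (m • z) (h5 m)
    have h9 := hC m hm
    have h10 := hcon m hm
    omega
  obtain ⟨m, hm, hmm⟩ := hex
  obtain ⟨a', ha', hcl'⟩ := S.orderD mu' (!i) (m • z) (h5 m) hmm
  obtain ⟨mu'', k', b', hk', g5, g3, g4, g6, -⟩ := S.up mu' (!i) z m a' h3 hm ha' hcl'
  have hew : k' • S.sh (!i) m z a' = S.sh (!i) (k' * m) z (k' * a') := by
    rw [Numbers.sh, Numbers.sh]; module
  rw [hew] at g3 g5 g6
  have hC1' : g.Car mu'' (S.sh (!i) (k' * m) z (k' * a')) := by simpa using g5 1
  have hDw := S.clean_D mu'' (!i) _ hC1' g6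
  have hrw : g.rho (S.sh (!i) (k' * m) z (k' * a')) = (k' * m) • g.rho z := S.rho_comb _ _ _ _
  generalize hwdef : S.sh (!i) (k' * m) z (k' * a') = w at *
  obtain ⟨mu3, α, β, b3, Y3, hα, hβ, hY3, f1, f2, f3⟩ := S.mid mu' mu'' z w (!i) (k' * m) (k' * a')
    (Nat.mul_pos hk' hm) (Nat.mul_pos hk' ha') h3 g3 hwdef.symm
  have hC3 : g.Car mu3 Y3 := by simpa using f3 1
  have hD3 : 0 < S.hD mu3 Y3 := by
    rw [hY3]
    refine S.super mu3 mu' mu'' (α • z) (β • w) (S.nef_nsmul mu' z h3 α hα)
      (S.nef_nsmul mu'' w g3 β hβ) ?_ (h5 α) (g5 β) ?_ (S.hD_nsmul mu' z α hC1 hDz)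
      (S.hD_nsmul mu'' w β hC1' hDw)
    · rw [← hY3]; exact f1
    · rw [← hY3]; exact hC3
  have hr3 : g.rho Y3 = (α * (k * n) + β * ((k' * m) * (k * n))) • g.rho Y := by
    rw [hY3, map_add, map_nsmul, map_nsmul, hrw, hrz]
    module
  have hpos : 0 < α * (k * n) + β * ((k' * m) * (k * n)) := by positivity
  have h23 : Two (g.rho Y3) := by rw [hr3]; exact S.two_nsmul _ _ hpos h2
  have hc3 : c (g.rho Y3) = 0 := by
    rw [hr3, ← map_nsmul]
    exact S.c_nsmul Y mu _ hc
  have hs3 : ∀ l, S.Side mu3 Y3 l := by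
    intro l
    refine ⟨f1, b3 + 1, 1, by omega, one_pos, ?_⟩
    have e : (b3 + 1) • Y3 + 1 • S.V l = Y3 + (b3 • Y3 + S.V l) := by module
    rw [e]
    exact S.nef_add _ _ _ f1 (f2 l)
  obtain ⟨m3, hm3, hD3'⟩ := S.grow mu3 Y3
    (S.flat mu3 Y3 true (hs3 true) f3 h23 (S.q_D_pos' mu3 Y3 hs3 h23))
    (Or.inr ⟨1, one_pos, by rwa [one_smul]⟩)
  obtain ⟨k3, hk3, hsemi⟩ := S.semi_of_hD mu3 Y3 f3 hs3 h23 hc3 m3 hm3 hD3'
  refine ⟨k3 * (α * (k * n) + β * ((k' * m) * (k * n))), Nat.mul_pos hk3 hpos, ?_⟩
  rwa [mul_smul, ← hr3]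

/-- The result for a class in the interior. -/
theorem interior (mu : g.Mo) (Y : g.Lam) (hcar : ∀ j : ℕ, g.Car mu (j • Y))
    (hs : ∀ l, S.Side mu Y l) (h2 : Two (g.rho Y)) (hc : c (g.rho Y) = 0) :
    (∀ l : ℕ, 0 < l → g.Acyclic mu (l • Y)) ∨ ∃ k : ℕ, 0 < k ∧ Semi (k • g.rho Y) := by
  have hf := S.flat mu Y true (hs true) hcar h2 (S.q_D_pos' mu Y hs h2)
  by_cases ho : 0 < S.o
  · right
    obtain ⟨m, hm, h⟩ := S.grow mu Y hf (Or.inl ho)
    exact S.semi_of_hD mu Y hcar hs h2 hc m hm h
  by_cases hD : ∃ j : ℕ, 0 < j ∧ 0 < S.hD mu (j • Y)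
  · right
    obtain ⟨m, hm, h⟩ := S.grow mu Y hf (Or.inr hD)
    exact S.semi_of_hD mu Y hcar hs h2 hc m hm h
  by_cases hA : ∀ l : ℕ, 0 < l → g.Acyclic mu (l • Y)
  · exact Or.inl hA
  right
  push Not at hA
  obtain ⟨n, hn, hna⟩ := hA
  have hsn := fun l => S.side_nsmul mu Y l (hs l) n hn
  have h2n : Two (g.rho (n • Y)) := by rw [map_nsmul]; exact S.two_nsmul _ _ hn h2
  have hex : ∃ i, 0 < S.h mu i (n • Y) := by
    by_contra hcon
    push Not at hcon
    exact hna (S.acyclic mu (n • Y) (S.flat mu _ true (hsn true) (car_nsmul mu Y hcar n) h2n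
      (S.q_D_pos' mu _ hsn h2n)) h2n (S.c_nsmul Y mu n hc)
      (fun i => S.q_pos mu _ i (hsn i) h2n) (fun i => Nat.le_zero.1 (hcon i)))
  obtain ⟨i, hi⟩ := hex
  exact S.semi_of_section (by omega) mu Y hcar hs h2 hc hD n hn i hi

include S in
/-- Let `x` be nef on a model, of numerical dimension two on the generic fibre and of degree zero with
respect to the second Chern class. Then some extension of a multiple is acyclic on `X_b` with all its
multiples, or, after a finite base change, nef and semiample on the special fibre. -/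
theorem result (mu : g.Mo) (x : g.Lam) (hx : g.Nef mu x) (h2 : Two (g.rho x))
    (hc : c (g.rho x) = 0) :
    (∃ (mu' : g.Mo) (k : ℕ) (y : g.Lam), 0 < k ∧ g.rho y = k • g.rho x ∧
      ∀ l : ℕ, 0 < l → g.Car mu' (l • y) ∧ g.Acyclic mu' (l • y)) ∨
        ∃ k : ℕ, 0 < k ∧ Semi (k • g.rho x) := by
  by_cases h : ∃ i mu', g.Nef mu' x ∧ ∃ j : ℕ, g.Nef mu' (j • x + S.V i)
  · obtain ⟨i0, mu', hx', j, hj⟩ := h
    -- a class in the interior
    have hxj := S.nef_nsmul mu' x hx' (j + 1) (Nat.succ_pos j)
    obtain ⟨w, hw⟩ : ∃ w, w = (j + 1) • x + S.V i0 := ⟨_, rfl⟩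
    have hwn : g.Nef mu' w := by
      have e : w = x + (j • x + S.V i0) := by rw [hw]; module
      rw [e]
      exact S.nef_add _ _ _ hx' hj
    obtain ⟨y, hy⟩ : ∃ y, y = (j + 1) • x + w := ⟨_, rfl⟩
    have hyn : g.Nef mu' y := by rw [hy]; exact S.nef_add _ _ _ hxj hwn
    have hplus : g.Nef mu' (y + y + S.V i0) := by
      have e : y + y + S.V i0 = (j + 1) • x + (w + w + w) := by
        rw [hy, hw]; module
      rw [e]
      exact S.nef_add _ _ _ hxj (S.nef_add _ _ _ (S.nef_add _ _ _ hwn hwn) hwn)
    have hminus : g.Nef mu' (y + y + S.V (!i0)) := by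
      have e : y + y + S.V (!i0) = (j + 1) • x + (j + 1) • x + (j + 1) • x + w := by
        rw [hy, hw, S.V_not]; module
      rw [e]
      exact S.nef_add _ _ _ (S.nef_add _ _ _ (S.nef_add _ _ _ hxj hxj) hxj) hwn
    have hboth : ∀ i, g.Nef mu' (y + y + S.V i) := by
      intro i
      cases i <;> cases i0 <;> assumption
    have hry : g.rho y = (2 * (j + 1)) • g.rho x := by
      rw [hy, hw, map_add, map_add, map_nsmul, S.rho_V]
      module
    obtain ⟨k, hk, hcar⟩ := S.qfac mu' y
    have hs : ∀ l, S.Side mu' (k • y) l := by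
      intro l
      apply S.side_nsmul mu' y l ?_ k hk
      refine ⟨hyn, 2, 1, by omega, one_pos, ?_⟩
      have e : 2 • y + 1 • S.V l = y + y + S.V l := by module
      rw [e]
      exact hboth l
    have hrk : g.rho (k • y) = (k * (2 * (j + 1))) • g.rho x := by
      rw [map_nsmul, hry, ← mul_smul]
    have hkp : 0 < k * (2 * (j + 1)) := by positivity
    have h2k : Two (g.rho (k • y)) := by rw [hrk]; exact S.two_nsmul _ _ hkp h2
    have hck : c (g.rho (k • y)) = 0 := by
      rw [hrk, ← map_nsmul]
      exact S.c_nsmul x mu _ hc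
    rcases S.interior mu' (k • y) hcar hs h2k hck with h | ⟨m, hm, h⟩
    · left
      exact ⟨mu', _, k • y, hkp, hrk, fun l hl => ⟨hcar l, h l hl⟩⟩
    · right
      refine ⟨m * (k * (2 * (j + 1))), Nat.mul_pos hm hkp, ?_⟩
      rwa [mul_smul, ← hrk]
  · -- Mori fibrations on both sides
    right
    push Not at h
    have hF : ∀ i, S.Fib i x := fun i => S.mmp mu i x hx (h i)
    have hT : S.T mu false x x (S.V false) ≠ 0 := by
      intro h0
      have h1 := S.fib_sq mu false x hx (hF false) h0
      have h3 := S.fib_sq mu true x hx (hF true) (by rw [← S.T_D]; exact h0)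
      have h4 := S.q_sum mu x hx h2
      linarith
    choose l hl hl2 using fun i => S.cover mu i x hx (hF i) hT
    obtain ⟨A, hA⟩ := S.lin_fin mu x hx hT
    refine ⟨1, one_pos, ?_⟩
    rw [one_smul]
    exact S.glue mu x hx hF hT l hl
      (exists_pow_of_involutions A hA (l false) (l true) (hl2 false) (hl2 true))

end TwoGerm

end Pool.Agent.H6.MN
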